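import Pool.Agent.ZPK.StmtsL

set_option autoImplicit false

/-! Squad ZPK (MP_6e1a06_nt), row GTT: two pairs in equal states exclude each other. -/

namespace Pool.Agent.ZPK.H44

open Polynomial Pool.Agent.ZPT Pool.Agent.ZP3 Pool.Agent.ZPK

theorem add_le' {K : Type} [NormedField K] [IsUltrametricDist K] {x y : K} {r : ℝ}
    (hx : ‖x‖ ≤ r) (hy : ‖y‖ ≤ r) : ‖x + y‖ ≤ r :=
  (IsUltrametricDist.norm_add_le_max x y).trans (max_le hx hy)

theorem pow_lin {K : Type} [NormedField K] [IsUltrametricDist K] {x : K} {t : ℝ}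
    (ht : ‖x‖ ≤ t) (ht1 : t ≤ 1) (m : ℕ) : ‖(1 + x) ^ m - 1 - m * x‖ ≤ t ^ 2 := by
  have ht0 : 0 ≤ t := (norm_nonneg x).trans ht
  have htt : t ^ 2 ≤ t := by nlinarith
  induction m with
  | zero =>
    simp only [pow_zero, sub_self, Nat.cast_zero, zero_mul, norm_zero]
    positivity
  | succ m ih =>
    have h1 : ‖(1 + x) ^ m - 1‖ ≤ t := by
      have e : (1 + x) ^ m - 1 = ((1 + x) ^ m - 1 - m * x) + m * x := by ring
      rw [e]
      apply add_le' (ih.trans htt)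
      rw [norm_mul]
      have h2 := IsUltrametricDist.norm_natCast_le_one K m
      calc ‖(m : K)‖ * ‖x‖ ≤ 1 * t := mul_le_mul h2 ht (norm_nonneg _) zero_le_one
        _ = t := one_mul t
    have e : (1 + x) ^ (m + 1) - 1 - ((m + 1 : ℕ) : K) * x =
        ((1 + x) ^ m - 1 - m * x) + x * ((1 + x) ^ m - 1) := by
      push_cast
      ring
    rw [e]
    apply add_le' ih
    rw [norm_mul, pow_two]
    exact mul_le_mul ht h1 (norm_nonneg _) ht0

theorem pair_lin {K : Type} [NormedField K] [IsUltrametricDist K] {z l₁ l₂ ξ d : K} {t r : ℝ}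
    (hz : ‖z‖ = t) (ht1 : t < 1) (hl₂ : ‖l₂‖ ≤ 1) (hξ : ‖ξ - 1‖ = t) (hd : ‖d‖ ≤ r)
    (htr : t ^ 2 ≤ r) (h : 1 + l₁ * z = ξ * (1 + d) * (1 + l₂ * z)) :
    ‖(l₁ - l₂) * z - (ξ - 1)‖ ≤ r := by
  have ht0 : 0 ≤ t := by
    rw [← hz]
    exact norm_nonneg z
  have e : (l₁ - l₂) * z - (ξ - 1) = (ξ - 1) * (l₂ * z) + ξ * d * (1 + l₂ * z) := by
    linear_combination h
  rw [e]
  have hlz : ‖l₂ * z‖ ≤ t := by
    rw [norm_mul, hz]
    calc ‖l₂‖ * t ≤ 1 * t := mul_le_mul_of_nonneg_right hl₂ ht0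
      _ = t := one_mul t
  have hξ1 : ‖ξ‖ ≤ 1 := by
    have e1 : ξ = 1 + (ξ - 1) := by ring
    rw [e1]
    apply add_le'
    · rw [norm_one]
    · rw [hξ]
      exact ht1.le
  have h1 : ‖1 + l₂ * z‖ ≤ 1 := by
    apply add_le'
    · rw [norm_one]
    · exact hlz.trans ht1.le
  apply add_le'
  · refine le_trans ?_ htr
    rw [norm_mul, hξ, pow_two]
    exact mul_le_mul_of_nonneg_left hlz ht0
  · rw [norm_mul, norm_mul]
    calc ‖ξ‖ * ‖d‖ * ‖1 + l₂ * z‖ ≤ 1 * r * 1 := by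
          apply mul_le_mul _ h1 (norm_nonneg _)
          · have := (norm_nonneg d).trans hd
            linarith
          · exact mul_le_mul hξ1 hd (norm_nonneg _) zero_le_one
      _ = r := by ring

theorem gtt (hTHB : THBStmt) (hGTP : GtpStmt) : GttStmt := by
  intro p hp hp7 K _ _ _ hE z l₁ l₂ l₃ l₄ h h' ζ ζ' ρ hρ hz hz1 u1 u2 u3 u4 n12 n34 uh uh' rζ rζ'
    hA hB hgen
  obtain ⟨_, hth0, hth1, hpth, _⟩ := hTHB p hp (by omega)
  obtain ⟨k, ξ, d, hξ, hd, h12, hzξ, hzk⟩ :=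
    hGTP p hp hp7 K hE z l₁ l₂ h ζ ρ hρ hz hz1 u1 u2 n12 uh rζ hA
  obtain ⟨k', ξ', d', hξ', hd', h34, hzξ', hzk'⟩ :=
    hGTP p hp hp7 K hE z l₃ l₄ h' ζ' ρ hρ hz hz1 u3 u4 n34 uh' rζ' hB
  have hz0 : 0 < ‖z‖ := lt_of_lt_of_le hth0 hz
  have hkk : k = k' := by
    have h1 : ‖z‖ ^ (p ^ k * (p - 1)) = ‖z‖ ^ (p ^ k' * (p - 1)) := hzk.trans hzk'.symm
    have h2 := pow_right_injective₀ hz0 hz1.ne h1
    have h3 : p ^ k = p ^ k' := Nat.eq_of_mul_eq_mul_right (by omega) h2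
    exact Nat.pow_right_injective hp.two_le h3
  subst hkk
  haveI : NeZero (p ^ (k + 1)) := ⟨pow_ne_zero _ hp.ne_zero⟩
  obtain ⟨m, _, hm⟩ := hξ'.eq_pow_of_pow_eq_one hξ.pow_eq_one
  set t := ‖z‖ with ht
  set r := max (t ^ 2) (max ρ (p : ℝ)⁻¹) with hr
  have hrt : r < t := by
    rw [hr]
    have h3 : th p ^ 3 ≤ t := by
      have h4 : th p ^ 3 ≤ th p := by
        have h5 : th p ^ 3 ≤ th p ^ 1 := pow_le_pow_of_le_one hth0.le hth1.le (by norm_num)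
        rwa [pow_one] at h5
      exact h4.trans hz
    refine max_lt ?_ (max_lt (hρ.trans_le h3) (hpth.trans_le h3))
    nlinarith
  have e1 := pair_lin (r := r) ht.symm hz1 u2.1 hzξ.symm
    (hd.trans (le_max_right _ _)) (le_max_left _ _) h12
  have e2 := pair_lin (r := r) ht.symm hz1 u4.1 hzξ'.symm
    (hd'.trans (le_max_right _ _)) (le_max_left _ _) h34
  have e3 : ‖(ξ - 1) - m * (ξ' - 1)‖ ≤ r := by
    have h5 := pow_lin (x := ξ' - 1) (t := t) hzξ'.symm.le hz1.le m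
    have h6 : (1 : K) + (ξ' - 1) = ξ' := by ring
    rw [h6, hm] at h5
    exact h5.trans (le_max_left _ _)
  have e4 : ‖(m : K) * ((l₃ - l₄) * z - (ξ' - 1))‖ ≤ r := by
    rw [norm_mul]
    have h2 := IsUltrametricDist.norm_natCast_le_one K m
    calc ‖(m : K)‖ * ‖(l₃ - l₄) * z - (ξ' - 1)‖ ≤ 1 * r :=
          mul_le_mul h2 e2 (norm_nonneg _) zero_le_one
      _ = r := one_mul r
  have hfin : ‖(l₁ - l₂ - ((m : ℤ) : K) * (l₃ - l₄)) * z‖ ≤ r := by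
    have e : (l₁ - l₂ - ((m : ℤ) : K) * (l₃ - l₄)) * z =
        (((l₁ - l₂) * z - (ξ - 1)) + ((ξ - 1) - m * (ξ' - 1))) +
          -((m : K) * ((l₃ - l₄) * z - (ξ' - 1))) := by
      push_cast
      ring
    rw [e]
    apply add_le' (add_le' e1 e3)
    rw [norm_neg]
    exact e4
  rw [norm_mul, hgen m, one_mul] at hfin
  exact absurd hfin (not_le.2 hrt)

end Pool.Agent.ZPK.H44
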