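import Pool.Agent.ZPK.StmtsR2

/-! Squad ZPK (MP_6e1a06_nt), row PRT: principal roots are power series with `p`-integral
coefficients (author helper44). -/

set_option autoImplicit false

namespace Pool.Agent.ZPK.H44.Prt

open Polynomial Pool.Agent.ZPT Pool.Agent.ZP3

/-- formal roots modulo `X ^ k` -/
theorem formal_root {R : Type} [CommRing R] (n : ℕ) (ν : R) (hν : (n : R) * ν = 1) (A : R[X])
    (hA : A.coeff 0 = 1) (k : ℕ) :
    ∃ P : R[X], P.coeff 0 = 1 ∧ X ^ k ∣ P ^ n - A := by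
  induction k with
  | zero => exact ⟨1, by simp, by simp⟩
  | succ k ih =>
    by_cases hk : k = 0
    · subst hk
      refine ⟨1, by simp, ?_⟩
      rw [zero_add, pow_one, Polynomial.X_dvd_iff]
      simp [hA]
    obtain ⟨P, hP, Q, hQ⟩ := ih
    obtain ⟨T, hT⟩ := Polynomial.powAddExpansion P (C (-(ν * Q.coeff 0)) * X ^ k) n
    refine ⟨P + C (-(ν * Q.coeff 0)) * X ^ k, ?_, ?_⟩
    · rw [← Polynomial.constantCoeff_apply] at hP ⊢
      rw [map_add, hP, map_mul, map_pow, Polynomial.constantCoeff_apply (p := X),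
        Polynomial.coeff_X_zero, zero_pow hk, mul_zero, add_zero]
    · have h1 : (P + C (-(ν * Q.coeff 0)) * X ^ k) ^ n - A =
          X ^ k * (Q + (n : R[X]) * P ^ (n - 1) * C (-(ν * Q.coeff 0)) +
            T * C (-(ν * Q.coeff 0)) ^ 2 * X ^ k) := by
        rw [hT]
        have h2 : P ^ n = A + X ^ k * Q := by
          rw [← hQ]
          ring
        rw [h2]
        ring
      rw [h1, pow_succ]
      apply mul_dvd_mul_left
      rw [Polynomial.X_dvd_iff, ← Polynomial.constantCoeff_apply]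
      rw [← Polynomial.constantCoeff_apply] at hP
      rw [map_add, map_add, map_mul, map_mul, map_mul, map_pow, map_pow, hP, map_natCast,
        Polynomial.constantCoeff_apply (p := C _), Polynomial.coeff_C_zero,
        Polynomial.constantCoeff_apply (p := X), Polynomial.coeff_X_zero, zero_pow hk, mul_zero,
        add_zero, one_pow, mul_one, Polynomial.constantCoeff_apply]
      have h3 : (n : R) * -(ν * Q.coeff 0) = -(((n : R) * ν) * Q.coeff 0) := by ring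
      rw [h3, hν]
      ring

/-- the `p`-integral rational numbers -/
def Zp (p : ℕ) [Fact p.Prime] : Subring ℚ where
  carrier := {x | padicNorm p x ≤ 1}
  mul_mem' := by
    intro a b ha hb
    rw [Set.mem_ofPred_eq] at ha hb ⊢
    rw [padicNorm.mul]
    exact mul_le_one₀ ha (padicNorm.nonneg _) hb
  one_mem' := by
    rw [Set.mem_ofPred_eq, padicNorm.one]
  add_mem' := by
    intro a b ha hb
    rw [Set.mem_ofPred_eq] at ha hb ⊢
    exact le_trans padicNorm.nonarchimedean (max_le ha hb)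
  zero_mem' := by
    rw [Set.mem_ofPred_eq, padicNorm.zero]
    exact zero_le_one
  neg_mem' := by
    intro a ha
    rw [Set.mem_ofPred_eq] at ha ⊢
    rw [padicNorm.neg]
    exact ha

section field

variable {K : Type} [NormedField K] [IsUltrametricDist K]

theorem near_mul {r : ℝ} (hr : 0 ≤ r) (hr1 : r ≤ 1) {x y : K} (hx : ‖x - 1‖ ≤ r)
    (hy : ‖y - 1‖ ≤ r) : ‖x * y - 1‖ ≤ r := by
  have h1 : x * y - 1 = (x - 1) * (y - 1) + ((x - 1) + (y - 1)) := by ring
  rw [h1]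
  refine le_trans (IsUltrametricDist.norm_add_le_max _ _) (max_le ?_ ?_)
  · rw [norm_mul]
    calc ‖x - 1‖ * ‖y - 1‖ ≤ r * r := mul_le_mul hx hy (norm_nonneg _) hr
      _ ≤ r * 1 := mul_le_mul_of_nonneg_left hr1 hr
      _ = r := mul_one r
  · exact le_trans (IsUltrametricDist.norm_add_le_max _ _) (max_le hx hy)

theorem near_pow {r : ℝ} (hr : 0 ≤ r) (hr1 : r ≤ 1) {x : K} (hx : ‖x - 1‖ ≤ r) (n : ℕ) :
    ‖x ^ n - 1‖ ≤ r := by
  induction n with
  | zero =>
    rw [pow_zero, sub_self, norm_zero]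
    exact hr
  | succ n ih =>
    rw [pow_succ]
    exact near_mul hr hr1 ih hx

theorem root_dist {x y : K} {n : ℕ} (hn : ‖(n : K)‖ = 1) (hx : ‖x - 1‖ < 1) (hy : ‖y - 1‖ < 1) :
    ‖x - y‖ ≤ ‖x ^ n - y ^ n‖ := by
  obtain ⟨r, hr⟩ : ∃ r, r = max ‖x - 1‖ ‖y - 1‖ := ⟨_, rfl⟩
  have hr0 : 0 ≤ r := by
    rw [hr]
    exact le_trans (norm_nonneg _) (le_max_left _ _)
  have hr1 : r < 1 := by
    rw [hr]
    exact max_lt hx hy
  have hxr : ‖x - 1‖ ≤ r := by
    rw [hr]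
    exact le_max_left _ _
  have hyr : ‖y - 1‖ ≤ r := by
    rw [hr]
    exact le_max_right _ _
  obtain ⟨S, hS⟩ : ∃ S, S = ∑ i ∈ Finset.range n, x ^ i * y ^ (n - 1 - i) := ⟨_, rfl⟩
  have h1 : (x - y) * S = x ^ n - y ^ n := by
    rw [hS]
    exact (Commute.all x y).mul_geom_sum₂ n
  have h2 : ‖(n : K) - S‖ ≤ r := by
    have h3 : (n : K) - S = -∑ i ∈ Finset.range n, (x ^ i * y ^ (n - 1 - i) - 1) := by
      rw [Finset.sum_sub_distrib, ← hS]
      simp
    rw [h3, norm_neg]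
    refine IsUltrametricDist.norm_sum_le_of_forall_le_of_nonneg hr0 ?_
    intro i _
    exact near_mul hr0 hr1.le (near_pow hr0 hr1.le hxr _) (near_pow hr0 hr1.le hyr _)
  have h3 : 1 ≤ ‖S‖ := by
    have h4 := IsUltrametricDist.norm_add_le_max ((n : K) - S) S
    rw [sub_add_cancel, hn] at h4
    rcases le_max_iff.1 h4 with h5 | h5
    · linarith
    · exact h5
  rw [← h1, norm_mul]
  exact le_mul_of_one_le_right (norm_nonneg _) h3

variable {R : Type} [CommRing R] (ι : R →+* K) (hι : ∀ x, ‖ι x‖ ≤ 1)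

include hι

theorem norm_eval (P : R[X]) (u : K) (hu : ‖u‖ ≤ 1) : ‖P.eval₂ ι u‖ ≤ 1 := by
  rw [Polynomial.eval₂_eq_sum_range]
  refine IsUltrametricDist.norm_sum_le_of_forall_le_of_nonneg zero_le_one ?_
  intro i _
  rw [norm_mul, norm_pow]
  exact mul_le_one₀ (hι _) (pow_nonneg (norm_nonneg _) _) (pow_le_one₀ (norm_nonneg _) hu)

theorem eval_tail (P : R[X]) (u : K) (hu : ‖u‖ ≤ 1) (k : ℕ) :
    ‖P.eval₂ ι u - ∑ i ∈ Finset.range k, ι (P.coeff i) * u ^ i‖ ≤ ‖u‖ ^ k := by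
  rw [Polynomial.eval₂_eq_sum_range' ι (show P.natDegree < k + (P.natDegree + 1) by omega) u,
    Finset.sum_range_add, add_sub_cancel_left]
  refine IsUltrametricDist.norm_sum_le_of_forall_le_of_nonneg (pow_nonneg (norm_nonneg _) _) ?_
  intro i _
  rw [norm_mul, norm_pow, pow_add]
  have h1 : ‖u‖ ^ k * ‖u‖ ^ i ≤ ‖u‖ ^ k * 1 :=
    mul_le_mul_of_nonneg_left (pow_le_one₀ (norm_nonneg _) hu) (pow_nonneg (norm_nonneg _) _)
  calc ‖ι (P.coeff (k + i))‖ * (‖u‖ ^ k * ‖u‖ ^ i) ≤ 1 * (‖u‖ ^ k * ‖u‖ ^ i) :=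
        mul_le_mul_of_nonneg_right (hι _) (by positivity)
    _ ≤ ‖u‖ ^ k := by linarith

end field

end Pool.Agent.ZPK.H44.Prt

namespace Pool.Agent.ZPK.H44

open Polynomial Pool.Agent.ZPT Pool.Agent.ZP3

theorem prt : PrtStmt := by
  intro p hp K _ _ _ hExt m n k hn hnp
  have : Fact p.Prime := ⟨hp⟩
  have hpn : padicNorm p (n : ℚ) = 1 :=
    (padicNorm.nat_eq_one_iff n).2 fun h => absurd (Nat.le_of_dvd (by omega) h) (by omega)
  have hn0 : (n : ℚ) ≠ 0 := by
    have : n ≠ 0 := by omega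
    exact_mod_cast this
  have hinv : padicNorm p ((n : ℚ)⁻¹) ≤ 1 := by
    have h1 : padicNorm p (n : ℚ) * padicNorm p ((n : ℚ)⁻¹) = 1 := by
      rw [← padicNorm.mul, mul_inv_cancel₀ hn0, padicNorm.one]
    rw [hpn, one_mul] at h1
    exact h1.le
  obtain ⟨P, hP, Q, hQ⟩ := Prt.formal_root (R := Prt.Zp p) n ⟨(n : ℚ)⁻¹, hinv⟩ (by
    apply Subtype.ext
    simp [hn0]) ((1 + X) ^ m) (by
    rw [← Polynomial.constantCoeff_apply, map_pow, map_add, map_one,
      Polynomial.constantCoeff_apply, Polynomial.coeff_X_zero, add_zero, one_pow]) k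
  obtain ⟨ι, hι0⟩ : ∃ ι : Prt.Zp p →+* K, ι = (Rat.castHom K).comp (Prt.Zp p).subtype := ⟨_, rfl⟩
  have hιv : ∀ x : Prt.Zp p, ι x = ((x : ℚ) : K) := by
    intro x
    rw [hι0]
    rfl
  have hι : ∀ x, ‖ι x‖ ≤ 1 := by
    intro x
    rw [hιv, hExt]
    have h1 : padicNorm p (x : ℚ) ≤ 1 := x.2
    exact_mod_cast h1
  have hnK : ‖(n : K)‖ = 1 := by
    have h1 := hExt (n : ℚ)
    rw [hpn] at h1
    rw [← Rat.cast_natCast]
    rw [h1]
    simp
  refine ⟨fun i => (P.coeff i : ℚ), fun i => (P.coeff i).2, ?_⟩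
  intro u G hu hG hGn
  have h1 : (P.eval₂ ι u) ^ n - (1 + u) ^ m = u ^ k * Q.eval₂ ι u := by
    have h2 := congrArg (Polynomial.eval₂ ι u) hQ
    rw [Polynomial.eval₂_sub, Polynomial.eval₂_pow, Polynomial.eval₂_pow, Polynomial.eval₂_add,
      Polynomial.eval₂_one, Polynomial.eval₂_X, Polynomial.eval₂_mul, Polynomial.eval₂_pow,
      Polynomial.eval₂_X] at h2
    exact h2
  have h2 : ‖P.eval₂ ι u - 1‖ < 1 := by
    have h3 := Prt.eval_tail ι hι P u hu.le 1
    rw [Finset.sum_range_one, hP, map_one, pow_zero, mul_one, pow_one] at h3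
    exact lt_of_le_of_lt h3 hu
  have h3 := Prt.root_dist hnK h2 hG
  rw [hGn, h1, norm_mul, norm_pow] at h3
  have h4 : ‖u‖ ^ k * ‖Q.eval₂ ι u‖ ≤ ‖u‖ ^ k :=
    mul_le_of_le_one_right (pow_nonneg (norm_nonneg _) _) (Prt.norm_eval ι hι Q u hu.le)
  have h5 := Prt.eval_tail ι hι P u hu.le k
  have h6 : G - ∑ i ∈ Finset.range k, (((P.coeff i : ℚ)) : K) * u ^ i =
      -(P.eval₂ ι u - G) + (P.eval₂ ι u - ∑ i ∈ Finset.range k, ι (P.coeff i) * u ^ i) := by
    have h7 : ∑ i ∈ Finset.range k, ι (P.coeff i) * u ^ i =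
        ∑ i ∈ Finset.range k, (((P.coeff i : ℚ)) : K) * u ^ i :=
      Finset.sum_congr rfl fun i _ => by rw [hιv]
    rw [h7]
    ring
  rw [h6]
  refine le_trans (IsUltrametricDist.norm_add_le_max _ _) (max_le ?_ h5)
  rw [norm_neg]
  exact le_trans h3 h4

end Pool.Agent.ZPK.H44
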